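import Pool.Agent.R673.LG.Defs

/-!
# Congruences in abelian groups, and the primary decomposition of the exactness
-/

namespace Pool.Agent.R673.LG

section

variable {M N : Type} [AddCommGroup M] [AddCommGroup N]

lemma Cong.refl (n : ℕ) (x : M) : Cong n x x := ⟨0, by simp⟩

lemma Cong.symm {n : ℕ} {x y : M} (h : Cong n x y) : Cong n y x := by
  obtain ⟨t, ht⟩ := h
  exact ⟨-t, by rw [ht, smul_neg]; abel⟩

lemma Cong.trans {n : ℕ} {x y z : M} (h : Cong n x y) (h' : Cong n y z) : Cong n x z := by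
  obtain ⟨t, ht⟩ := h
  obtain ⟨s, hs⟩ := h'
  exact ⟨s + t, by rw [ht, hs, smul_add]; abel⟩

lemma Cong.add {n : ℕ} {x y x' y' : M} (h : Cong n x y) (h' : Cong n x' y') :
    Cong n (x + x') (y + y') := by
  obtain ⟨t, ht⟩ := h
  obtain ⟨s, hs⟩ := h'
  exact ⟨t + s, by rw [ht, hs, smul_add]; abel⟩

lemma Cong.zsmul {n : ℕ} {x y : M} (h : Cong n x y) (c : ℤ) : Cong n (c • x) (c • y) := by
  obtain ⟨t, ht⟩ := h
  exact ⟨c • t, by rw [ht, smul_add, smul_comm]⟩

lemma Cong.map {n : ℕ} {x y : M} (h : Cong n x y) (f : M →+ N) : Cong n (f x) (f y) := by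
  obtain ⟨t, ht⟩ := h
  exact ⟨f t, by rw [ht, map_add, map_nsmul]⟩

lemma Cong.dvd {n m : ℕ} {x y : M} (h : Cong m x y) (hnm : n ∣ m) : Cong n x y := by
  obtain ⟨t, ht⟩ := h
  obtain ⟨k, rfl⟩ := hnm
  exact ⟨k • t, by rw [ht, mul_smul]⟩

lemma Cong.sum {ι : Type*} {n : ℕ} (s : Finset ι) {x y : ι → M} (h : ∀ i ∈ s, Cong n (x i) (y i)) :
    Cong n (∑ i ∈ s, x i) (∑ i ∈ s, y i) := by
  classical
  induction s using Finset.induction_on with
  | empty => exact Cong.refl _ _
  | insert a s ha ih =>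
    rw [Finset.sum_insert ha, Finset.sum_insert ha]
    exact (h a (Finset.mem_insert_self a s)).add
      (ih fun i hi => h i (Finset.mem_insert_of_mem hi))

lemma cong_smul {n : ℕ} {a b : ℤ} (h : (n : ℤ) ∣ a - b) (x : M) : Cong n (a • x) (b • x) := by
  obtain ⟨k, hk⟩ := h
  refine ⟨k • x, ?_⟩
  have h1 : a = b + (n : ℤ) * k := by linarith
  rw [h1, add_smul, mul_smul, natCast_zsmul]

lemma cong_zero {n : ℕ} {a : ℤ} (h : (n : ℤ) ∣ a) (x : M) : Cong n (a • x) 0 := by
  have := cong_smul (b := 0) (by simpa using h) x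
  rwa [zero_smul] at this

lemma cong_one (x y : M) : Cong 1 x y := ⟨x - y, by rw [one_smul]; abel⟩

/-- inverses modulo `n` -/
lemma exists_inv {m n : ℕ} (h : m.Coprime n) : ∃ u : ℤ, (n : ℤ) ∣ u * m - 1 := by
  have h1 : IsCoprime (m : ℤ) n := Nat.isCoprime_iff_coprime.2 h
  obtain ⟨a, b, hab⟩ := h1
  exact ⟨a, -b, by linear_combination hab⟩

/-- the congruence modulo `n` can be checked at all primes -/
lemma cong_of_primes {n : ℕ} (hn : 0 < n) {x y : M}
    (h : ∀ l : ℕ, l.Prime → Cong (l ^ n.factorization l) x y) : Cong n x y := by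
  let H : AddSubgroup ℤ :=
    { carrier := {k | Cong n (k • x) (k • y)}
      zero_mem' := by
        change Cong n ((0 : ℤ) • x) ((0 : ℤ) • y)
        rw [zero_smul, zero_smul]
        exact Cong.refl _ _
      add_mem' := by
        intro a b ha hb
        change Cong n ((a + b) • x) ((a + b) • y)
        rw [add_smul, add_smul]
        exact Cong.add ha hb
      neg_mem' := by
        intro a ha
        change Cong n ((-a) • x) ((-a) • y)
        have h1 : Cong n (a • x) (a • y) := ha
        have h2 := h1.zsmul (-1)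
        rwa [smul_smul, smul_smul, neg_one_mul] at h2 }
  obtain ⟨d, hd⟩ := Int.subgroup_cyclic H
  have hmem : ∀ l : ℕ, l.Prime → ((n / l ^ n.factorization l : ℕ) : ℤ) ∈ H := by
    intro l hl
    obtain ⟨t, ht⟩ := h l hl
    change Cong n (((n / l ^ n.factorization l : ℕ) : ℤ) • x) _
    refine ⟨t, ?_⟩
    rw [ht, smul_add, natCast_zsmul, natCast_zsmul, smul_smul, mul_comm,
      Nat.ordProj_mul_ordCompl_eq_self]
  have hdvd : ∀ l : ℕ, l.Prime → d.natAbs ∣ n / l ^ n.factorization l := by
    intro l hl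
    have h1 := hmem l hl
    rw [hd, AddSubgroup.mem_closure_singleton] at h1
    obtain ⟨k, hk⟩ := h1
    have h2 : d ∣ ((n / l ^ n.factorization l : ℕ) : ℤ) := ⟨k, by rw [← hk, smul_eq_mul, mul_comm]⟩
    have h3 := Int.natAbs_dvd_natAbs.2 h2
    rwa [Int.natAbs_natCast] at h3
  have h1 : d.natAbs = 1 := by
    by_contra hne
    obtain ⟨q, hq, hqd⟩ := Nat.exists_prime_and_dvd hne
    exact Nat.not_dvd_ordCompl hq hn.ne' (hqd.trans (hdvd q hq))
  have h2 : (1 : ℤ) ∈ H := by
    rw [hd, AddSubgroup.mem_closure_singleton]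
    rcases Int.natAbs_eq d with h3 | h3
    · exact ⟨1, by rw [h3, h1]; simp⟩
    · exact ⟨-1, by rw [h3, h1]; simp⟩
  have h3 : Cong n ((1 : ℤ) • x) ((1 : ℤ) • y) := h2
  rwa [one_smul, one_smul] at h3

/-- the idempotents of the primary decomposition -/
lemma exists_idem {n : ℕ} (hn : 0 < n) {l : ℕ} (hl : l.Prime) : ∃ c : ℤ,
    ((l ^ n.factorization l : ℕ) : ℤ) ∣ c - 1 ∧ ((n / l ^ n.factorization l : ℕ) : ℤ) ∣ c := by
  have h1 : (l ^ n.factorization l).Coprime (n / l ^ n.factorization l) :=
    Nat.Coprime.pow_left _ (Nat.coprime_ordCompl hl hn.ne')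
  obtain ⟨a, b, hab⟩ := Nat.isCoprime_iff_coprime.2 h1
  refine ⟨b * ((n / l ^ n.factorization l : ℕ) : ℤ), ⟨-a, by linear_combination hab⟩, ⟨b, by ring⟩⟩

lemma pow_dvd_compl {n : ℕ} {l q : ℕ} (hl : l.Prime) (hq : q.Prime) (hne : q ≠ l) :
    q ^ n.factorization q ∣ n / l ^ n.factorization l := by
  have h1 : q ^ n.factorization q ∣ l ^ n.factorization l * (n / l ^ n.factorization l) := by
    rw [Nat.ordProj_mul_ordCompl_eq_self]
    exact Nat.ordProj_dvd n q
  refine (Nat.Coprime.dvd_mul_left ?_).1 h1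
  exact Nat.Coprime.pow _ _ ((Nat.coprime_primes hq hl).2 hne)

/-- the Chinese remainder theorem -/
lemma exists_crt {n : ℕ} (hn : 0 < n) (y : ℕ → M) : ∃ x : M, ∀ l : ℕ, l.Prime →
    Cong (l ^ n.factorization l) x (y l) := by
  classical
  have h1 : ∀ l : ℕ, ∃ c : ℤ, l.Prime → ((l ^ n.factorization l : ℕ) : ℤ) ∣ c - 1 ∧
      ((n / l ^ n.factorization l : ℕ) : ℤ) ∣ c := by
    intro l
    by_cases hl : l.Prime
    · obtain ⟨c, hc⟩ := exists_idem hn hl
      exact ⟨c, fun _ => hc⟩
    · exact ⟨0, fun h => absurd h hl⟩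
  choose c hc using h1
  refine ⟨∑ l ∈ n.primeFactors, c l • y l, fun q hq => ?_⟩
  by_cases hqn : q ∈ n.primeFactors
  · rw [← Finset.add_sum_erase _ _ hqn]
    have h2 : Cong (q ^ n.factorization q) (c q • y q) (y q) := by
      have := cong_smul (hc q hq).1 (y q)
      rwa [one_smul] at this
    have h3 : Cong (q ^ n.factorization q) (∑ l ∈ n.primeFactors.erase q, c l • y l)
        (∑ l ∈ n.primeFactors.erase q, (0 : M)) := by
      refine Cong.sum _ fun l hl => ?_
      have hlp : l.Prime := Nat.prime_of_mem_primeFactors (Finset.mem_of_mem_erase hl)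
      have hne : q ≠ l := (Finset.ne_of_mem_erase hl).symm
      exact cong_zero ((Int.natCast_dvd_natCast.2 (pow_dvd_compl hlp hq hne)).trans (hc l hlp).2) _
    rw [Finset.sum_const_zero] at h3
    have h4 := h2.add h3
    rwa [add_zero] at h4
  · have h2 : n.factorization q = 0 := by
      rw [← Finsupp.notMem_support_iff, Nat.support_factorization]
      exact hqn
    rw [h2, pow_zero]
    exact cong_one _ _

lemma adic_le {l : ℕ} {x : ℕ → M} (h : ∀ n, Cong (l ^ n) (x (n + 1)) (x n)) {n m : ℕ}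
    (hnm : n ≤ m) : Cong (l ^ n) (x m) (x n) := by
  induction m, hnm using Nat.le_induction with
  | base => exact Cong.refl _ _
  | succ m hm ih => exact ((h m).dvd (pow_dvd_pow l hm)).trans ih

end

/-- The exactness is equivalent to the exactness at all primes. -/
theorem exact_iff (X : Complex) : X.Exact ↔ ∀ l : ℕ, l.Prime → X.ExactAt l := by
  classical
  constructor
  · intro h l hl z hz ho
    -- the idempotent at `l` for every `n`
    have h1 : ∀ n : ℕ, ∃ c : ℤ, 0 < n → ((l ^ n.factorization l : ℕ) : ℤ) ∣ c - 1 ∧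
        ((n / l ^ n.factorization l : ℕ) : ℤ) ∣ c := by
      intro n
      by_cases hn : 0 < n
      · obtain ⟨c, hc⟩ := exists_idem hn hl
        exact ⟨c, fun _ => hc⟩
      · exact ⟨0, fun h => absurd h hn⟩
    choose c hc using h1
    have hz' : ∀ v, Coherent fun n => c n • z v (n.factorization l) := by
      intro v n m hm hnm
      have hn : 0 < n := Nat.pos_of_dvd_of_pos hnm hm
      refine cong_of_primes hn fun q hq => ?_
      by_cases hql : q = l
      · subst hql
        have hle : n.factorization q ≤ m.factorization q :=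
          (Nat.factorization_le_iff_dvd hn.ne' hm.ne').2 hnm q
        have h2 := cong_smul (hc n hn).1 (z v (n.factorization q))
        have h3 := (cong_smul (hc m hm).1 (z v (m.factorization q))).dvd (pow_dvd_pow q hle)
        rw [one_smul] at h2 h3
        exact h3.trans ((adic_le (hz v) hle).trans h2.symm)
      · have hle : q ^ n.factorization q ∣ q ^ m.factorization q :=
          pow_dvd_pow q ((Nat.factorization_le_iff_dvd hn.ne' hm.ne').2 hnm q)
        have h2 : Cong (q ^ n.factorization q) (c n • z v (n.factorization l)) 0 :=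
          cong_zero ((Int.natCast_dvd_natCast.2 (pow_dvd_compl hl hq hql)).trans (hc n hn).2) _
        have h3 : Cong (q ^ m.factorization q) (c m • z v (m.factorization l)) 0 :=
          cong_zero ((Int.natCast_dvd_natCast.2 (pow_dvd_compl hl hq hql)).trans (hc m hm).2) _
        exact (h3.dvd hle).trans h2.symm
    have ho' : ∀ (n : ℕ) (α : X.Br), 0 < n → n • α = 0 →
        X.Orth (fun v => c n • z v (n.factorization l)) α := by
      intro n α hn hα
      have h2 : (fun v => c n • z v (n.factorization l)) =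
          c n • (fun v => z v (n.factorization l)) := rfl
      rw [Complex.Orth, h2, map_zsmul, AddMonoidHom.smul_apply, ← map_zsmul]
      refine ho (n.factorization l) (c n • α) ?_
      obtain ⟨k, hk⟩ := (hc n hn).2
      have h3 : ((l ^ n.factorization l : ℕ) : ℤ) * c n = k * (n : ℤ) := by
        rw [hk]
        have h4 : ((l ^ n.factorization l : ℕ) : ℤ) * ((n / l ^ n.factorization l : ℕ) : ℤ) =
            (n : ℤ) := by
          rw [← Nat.cast_mul, Nat.ordProj_mul_ordCompl_eq_self]
        linear_combination k * h4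
      rw [← natCast_zsmul, smul_smul, h3, mul_smul, natCast_zsmul, hα, smul_zero]
    obtain ⟨x, hx, hxz⟩ := h (fun v n => c n • z v (n.factorization l)) hz' ho'
    refine ⟨fun n => x (l ^ n), fun n => hx _ _ (pow_pos hl.pos _) (pow_dvd_pow l n.le_succ),
      fun v n => ?_⟩
    have h2 := hxz v (l ^ n) (pow_pos hl.pos _)
    have h3 : (l ^ n).factorization l = n := by
      rw [hl.factorization_pow, Finsupp.single_eq_same]
    rw [h3] at h2
    have h4 := (hc (l ^ n) (pow_pos hl.pos _)).1
    rw [h3] at h4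
    have h5 := cong_smul h4 (z v n)
    rw [one_smul] at h5
    exact h2.trans h5
  · intro h z hz ho
    have h1 : ∀ l : ℕ, ∃ x : ℕ → X.CH, l.Prime → Adic l x ∧
        ∀ v n, Cong (l ^ n) (X.at v (x n)) (z v (l ^ n)) := by
      intro l
      by_cases hl : l.Prime
      · obtain ⟨x, hx⟩ := h l hl (fun v n => z v (l ^ n))
          (fun v n => hz v _ _ (pow_pos hl.pos _) (pow_dvd_pow l n.le_succ))
          (fun n α hα => ho _ α (pow_pos hl.pos _) hα)
        exact ⟨x, fun _ => hx⟩
      · exact ⟨fun _ => 0, fun h => absurd h hl⟩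
    choose x hx using h1
    have h2 : ∀ n : ℕ, ∃ y : X.CH, 0 < n → ∀ l : ℕ, l.Prime →
        Cong (l ^ n.factorization l) y (x l (n.factorization l)) := by
      intro n
      by_cases hn : 0 < n
      · obtain ⟨y, hy⟩ := exists_crt hn (fun l => x l (n.factorization l))
        exact ⟨y, fun _ => hy⟩
      · exact ⟨0, fun h => absurd h hn⟩
    choose y hy using h2
    refine ⟨y, fun n m hm hnm => ?_, fun v n hn => ?_⟩
    · have hn : 0 < n := Nat.pos_of_dvd_of_pos hnm hm
      refine cong_of_primes hn fun q hq => ?_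
      have hle : n.factorization q ≤ m.factorization q :=
        (Nat.factorization_le_iff_dvd hn.ne' hm.ne').2 hnm q
      exact ((hy m hm q hq).dvd (pow_dvd_pow q hle)).trans
        ((adic_le (hx q hq).1 hle).trans (hy n hn q hq).symm)
    · refine cong_of_primes hn fun q hq => ?_
      have h3 : Cong (q ^ n.factorization q) (X.at v (y n)) (X.at v (x q (n.factorization q))) :=
        (hy n hn q hq).map (X.loc v)
      exact h3.trans (((hx q hq).2 v _).trans
        (hz v _ _ hn (Nat.ordProj_dvd n q)).symm)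

/-- Descent along an extension of degree prime to `l`. -/
theorem descent {X X' : Complex} {m : ℕ} (T : BaseChange X X' m) {l : ℕ} (hm : m.Coprime l)
    (h : X'.ExactAt l) : X.ExactAt l := by
  classical
  intro z hz ho
  obtain ⟨x', hx', hxz⟩ := h (fun w n => T.toMaps.resAll (fun v => z v n) w)
    (fun w n => (hz _ n).map (T.resLoc (T.below w) ⟨w, rfl⟩)) (fun n β hβ => by
      refine (T.pair_cores (fun v => z v n) β).2 (ho n _ ?_)
      rw [← map_nsmul, hβ, map_zero])
  have h1 : ∀ n : ℕ, ∃ u : ℤ, ((l ^ n : ℕ) : ℤ) ∣ u * m - 1 := fun n =>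
    exists_inv (Nat.Coprime.pow_right n hm)
  choose u hu using h1
  refine ⟨fun n => u n • T.norm (x' n), fun n => ?_, fun v n => ?_⟩
  · have h2 : ((l ^ n : ℕ) : ℤ) ∣ u (n + 1) - u n := by
      have h3 : ((l ^ n : ℕ) : ℤ) ∣ u (n + 1) * m - 1 :=
        (Int.natCast_dvd_natCast.2 (pow_dvd_pow l n.le_succ)).trans (hu (n + 1))
      have h4 : ((l ^ n : ℕ) : ℤ) ∣ (u (n + 1) - u n) * m := by
        have := dvd_sub h3 (hu n)
        have e : u (n + 1) * (m : ℤ) - 1 - (u n * m - 1) = (u (n + 1) - u n) * m := by ring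
        rwa [e] at this
      refine IsCoprime.dvd_of_dvd_mul_right ?_ h4
      exact Nat.isCoprime_iff_coprime.2 (Nat.Coprime.pow_right n hm).symm
    exact (((hx' n).map T.norm).zsmul (u (n + 1))).trans (cong_smul h2 _)
  · have h0 : X.at v (u n • T.norm (x' n)) = u n • X.at v (T.norm (x' n)) :=
      map_zsmul (X.loc v) _ _
    rw [h0, T.loc_norm]
    have h2 : Cong (l ^ n) (T.toMaps.normAt v (fun w => X'.at w (x' n)))
        (T.toMaps.normAt v (T.toMaps.resAll fun v => z v n)) := by
      refine Cong.sum _ fun w _ => ?_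
      exact (hxz w n).map (T.normLoc v w)
    rw [T.norm_res] at h2
    refine (h2.zsmul (u n)).trans ?_
    have h3 := cong_smul (hu n) (z v n)
    rw [one_smul, mul_smul, natCast_zsmul] at h3
    exact h3

end Pool.Agent.R673.LG
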