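import Mathlib

/-!
# Local-global complexes of zero-cycles: definitions
-/

namespace Pool.Agent.R673.LG

/-- `x` and `y` are congruent modulo `n M`. -/
def Cong {M : Type} [AddCommGroup M] (n : ℕ) (x y : M) : Prop := ∃ t : M, x = y + n • t

/-- The data of the local-global complex of zero-cycles of a variety `X` over a global field `K`:
`CH = CH_0(X)`, the set `Pl` of places `v` of `K`, the groups `Loc v = CH_0(X_v)^*` (`CH_0(X_v)` for
`v` non-archimedean, `0` for `v` complex, `CH_0(X_v)` modulo norms from `ℂ` for `v` real),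
`Br = Br(X)`, the localisation maps, and the pairing
`pair (z_v)_v α = ∑_v inv_v (z_v, α)` with values in `ℚ/ℤ`. -/
structure Complex where
  CH : Type
  [grpCH : AddCommGroup CH]
  Pl : Type
  Loc : Pl → Type
  [grpLoc : ∀ v, AddCommGroup (Loc v)]
  Br : Type
  [grpBr : AddCommGroup Br]
  loc : ∀ v, CH →+ Loc v
  pair : (∀ v, Loc v) →+ Br →+ AddCircle (1 : ℚ)

attribute [instance] Complex.grpCH Complex.grpLoc Complex.grpBr

/-- The family `z` of elements of `M` represents an element of `lim_n M/n`. -/
def Coherent {M : Type} [AddCommGroup M] (z : ℕ → M) : Prop :=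
  ∀ n m, 0 < m → n ∣ m → Cong n (z m) (z n)

/-- The sequence `z` of elements of `M` represents an element of `lim_n M/l^n`. -/
def Adic {M : Type} [AddCommGroup M] (l : ℕ) (z : ℕ → M) : Prop :=
  ∀ n, Cong (l ^ n) (z (n + 1)) (z n)

/-- The localisation at `v` of a zero-cycle class. -/
def Complex.at (X : Complex) (v : X.Pl) (x : X.CH) : X.Loc v := X.loc v x

/-- The family of local classes `y` is orthogonal to the class `α` in the Brauer group. -/
def Complex.Orth (X : Complex) (y : ∀ v, X.Loc v) (α : X.Br) : Prop := X.pair y α = 0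

/-- The exactness of `lim_n CH_0(X)/n → ∏_v lim_n CH_0(X_v)^*/n → Hom(Br(X), ℚ/ℤ)`. An element of
`lim_n M/n` is given by representatives `z n` with `z m` congruent to `z n` modulo `n` for `n ∣ m`;
it pairs with `α`, `n α = 0`, by the representative modulo `n`. -/
def Complex.Exact (X : Complex) : Prop :=
  ∀ z : ∀ v, ℕ → X.Loc v, (∀ v, Coherent (z v)) →
    (∀ (n : ℕ) (α : X.Br), 0 < n → n • α = 0 → X.Orth (fun v => z v n) α) →
    ∃ x : ℕ → X.CH, Coherent x ∧ ∀ v n, 0 < n → Cong n (X.at v (x n)) (z v n)

/-- The `l`-primary part of the exactness: the exactness of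
`lim_n CH_0(X)/l^n → ∏_v lim_n CH_0(X_v)^*/l^n → Hom(Br(X){l}, ℚ/ℤ)`. -/
def Complex.ExactAt (l : ℕ) (X : Complex) : Prop :=
  ∀ z : ∀ v, ℕ → X.Loc v, (∀ v, Adic l (z v)) →
    (∀ (n : ℕ) (α : X.Br), l ^ n • α = 0 → X.Orth (fun v => z v n) α) →
    ∃ x : ℕ → X.CH, Adic l x ∧ ∀ v n, Cong (l ^ n) (X.at v (x n)) (z v n)

/-- Maps between the data of `X` over `K` and `X' = X ×_K K'` over an extension `K'` of `K`: the place
`below w` of `K` under the place `w` of `K'`, the norm for `CH_0`, the restriction maps and the norms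
for the local groups at the places `w` over `v`, and the corestriction of Brauer groups. -/
structure Maps (X X' : Complex) where
  below : X'.Pl → X.Pl
  [fin : ∀ v, Fintype {w // below w = v}]
  norm : X'.CH →+ X.CH
  resLoc : ∀ (v : X.Pl) (w : {w // below w = v}), X.Loc v →+ X'.Loc w
  normLoc : ∀ (v : X.Pl) (w : {w // below w = v}), X'.Loc w →+ X.Loc v
  cores : X'.Br →+ X.Br

/-- The sum over the places `w` over `v` of the norms. -/
def Maps.normAt {X X' : Complex} (T : Maps X X') (v : X.Pl) (y : ∀ w, X'.Loc w) : X.Loc v :=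
  letI := T.fin v
  ∑ w : {w // T.below w = v}, T.normLoc v w (y w)

/-- The restriction of a family of local classes. -/
def Maps.resAll {X X' : Complex} (T : Maps X X') (y : ∀ v, X.Loc v) (w : X'.Pl) : X'.Loc w :=
  T.resLoc (T.below w) ⟨w, rfl⟩ (y (T.below w))

/-- `X'` is `X ×_K K'` for an extension `K'` of `K` of degree `m`: the maps are compatible (1) with
the localisation, (2) the norm of the restriction is the multiplication by `m`, (3) projection
formula for the pairing. -/
structure BaseChange (X X' : Complex) (m : ℕ) extends Maps X X' where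
  loc_norm : ∀ v x, X.at v (norm x) = toMaps.normAt v (fun w => X'.at w x)
  norm_res : ∀ v y, toMaps.normAt v (toMaps.resAll y) = m • y v
  pair_cores : ∀ (y : ∀ v, X.Loc v) (β : X'.Br),
    X'.Orth (toMaps.resAll y) β ↔ X.Orth y (cores β)

/-- The number of exceptional curves of a del Pezzo surface of degree `d ≤ 4` over an algebraically
closed field. -/
def excNumber : ℕ → ℕ
  | 1 => 240
  | 2 => 56
  | 3 => 27
  | 4 => 16
  | _ => 0

/-- The system of all del Pezzo surfaces `X` over number fields `K`, with the following standard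
facts.
* `Gal X` is the image of the absolute Galois group of `K` in the group of permutations of the set
  `Exc X` of the exceptional curves of `X` over `K̄` (`16`, `27`, `56`, `240` of them in the degrees
  `4`, `3`, `2`, `1`); `Disjoint X e e'`: the curves `e` and `e'` do not meet.
* `ofSub X H` is the surface `X` over the field of invariants of the subgroup `H` of `Gal X`, an
  extension of `K` of degree `[Gal X : H]`; its group `Gal` is the image of `H`.
* A nonempty Galois stable set `s` of pairwise disjoint exceptional curves can be contracted over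
  `K`, to a del Pezzo surface of degree `deg X + #s`, whose group `Gal` is a quotient of `Gal X`; the
  exactness of the completed complexes is invariant under birational maps of smooth projective
  surfaces.
* The exactness is known for `deg X ≥ 5` (these surfaces are birational to homogeneous spaces of
  linear groups: Liang) and for cubic surfaces which contain a line defined over `K` (these are
  conic bundles over the projective line: Harpaz and Wittenberg). -/
structure DelPezzoSystem where
  Obj : Type
  deg : Obj → ℕ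
  deg_pos : ∀ X, 1 ≤ deg X
  cpx : Obj → Complex
  Gal : Obj → Type
  [grp : ∀ X, Group (Gal X)]
  [fin : ∀ X, Finite (Gal X)]
  Exc : Obj → Type
  [act : ∀ X, MulAction (Gal X) (Exc X)]
  [finExc : ∀ X, Finite (Exc X)]
  Disjoint : ∀ X, Exc X → Exc X → Prop
  card_exc : ∀ X, deg X ≤ 4 → Nat.card (Exc X) = excNumber (deg X)
  ofSub : ∀ X, Subgroup (Gal X) → Obj
  deg_sub : ∀ X H, deg (ofSub X H) = deg X
  baseChange : ∀ (X : Obj) (H : Subgroup (Gal X)),
    Nonempty (BaseChange (cpx X) (cpx (ofSub X H)) H.index)
  gal_sub : ∀ (X : Obj) (H : Subgroup (Gal X)), ∃ f : H →* Gal (ofSub X H), Function.Surjective f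
  contract : ∀ (X : Obj) (s : Set (Exc X)), s.Nonempty → (∀ (g : Gal X), ∀ e ∈ s, g • e ∈ s) →
    (∀ e ∈ s, ∀ e' ∈ s, e ≠ e' → Disjoint X e e') → ∃ Y : Obj,
    deg Y = deg X + Nat.card s ∧ (∃ f : Gal X →* Gal Y, Function.Surjective f) ∧
    ∀ l : ℕ, l.Prime → (cpx Y).ExactAt l → (cpx X).ExactAt l
  known : ∀ X, 5 ≤ deg X → (cpx X).Exact
  known_cubic : ∀ (X : Obj) (e : Exc X), deg X = 3 → (∀ g : Gal X, g • e = e) → (cpx X).Exact

attribute [instance] DelPezzoSystem.grp DelPezzoSystem.fin DelPezzoSystem.act
  DelPezzoSystem.finExc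

/-- `X` is minimal over `K`: there is no nonempty Galois stable set of pairwise disjoint exceptional
curves. -/
def DelPezzoSystem.IsMinimal (𝒮 : DelPezzoSystem) (X : 𝒮.Obj) : Prop :=
  ¬ ∃ s : Set (𝒮.Exc X), s.Nonempty ∧ (∀ (g : 𝒮.Gal X), ∀ e ∈ s, g • e ∈ s) ∧
    ∀ e ∈ s, ∀ e' ∈ s, e ≠ e' → 𝒮.Disjoint X e e'

/-- `X` is minimal over `K` and its exceptional curves are defined over an extension of `K` of
`l`-power degree (the group `Gal X` is an `l`-group). -/
def DelPezzoSystem.IsCritical (𝒮 : DelPezzoSystem) (l : ℕ) (X : 𝒮.Obj) : Prop :=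
  IsPGroup l (𝒮.Gal X) ∧ 𝒮.IsMinimal X

end Pool.Agent.R673.LG
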