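import Pool.Agent.R673.LG.Cong

/-!
# Reduction to groups of prime power order for del Pezzo surfaces
-/

namespace Pool.Agent.R673.LG

variable (𝒮 : DelPezzoSystem)

lemma isPGroup_of_surj {G H : Type} [Group G] [Group H] {l : ℕ} (hG : IsPGroup l G)
    (h : ∃ f : G →* H, Function.Surjective f) : IsPGroup l H := by
  obtain ⟨f, hf⟩ := h
  exact hG.of_surjective f hf

/-- on a minimal surface no exceptional curve is fixed -/
lemma not_fixed {X : 𝒮.Obj} (hX : 𝒮.IsMinimal X) (e : 𝒮.Exc X) : ∃ g : 𝒮.Gal X, g • e ≠ e := by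
  by_contra hcon
  push Not at hcon
  refine hX ⟨{e}, ⟨e, rfl⟩, ?_, ?_⟩
  · rintro g _ rfl
    exact hcon g
  · rintro _ rfl _ rfl h
    exact absurd rfl h

/-- a group of `l`-power order without fixed exceptional curves: `l` divides their number -/
lemma dvd_excNumber {l : ℕ} (hl : l.Prime) {X : 𝒮.Obj} (hd : 𝒮.deg X ≤ 4)
    (hG : IsPGroup l (𝒮.Gal X)) (hX : ∀ e : 𝒮.Exc X, ∃ g : 𝒮.Gal X, g • e ≠ e) :
    l ∣ excNumber (𝒮.deg X) := by
  classical
  have : Fact l.Prime := ⟨hl⟩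
  by_contra h
  rw [← 𝒮.card_exc X hd] at h
  obtain ⟨e, he⟩ := hG.nonempty_fixed_point_of_prime_not_dvd_card (𝒮.Exc X) h
  obtain ⟨g, hg⟩ := hX e
  exact hg (he g)

/-- The exactness at `l` for the surfaces with a group of `l`-power order. -/
lemma of_pgroup {l : ℕ} (hl : l.Prime)
    (hcrit : ∀ X : 𝒮.Obj, 𝒮.deg X ≤ 4 → l ∣ excNumber (𝒮.deg X) → 𝒮.IsCritical l X →
      (𝒮.cpx X).ExactAt l) (k : ℕ) :
    ∀ X : 𝒮.Obj, 5 ≤ 𝒮.deg X + k → IsPGroup l (𝒮.Gal X) → (𝒮.cpx X).ExactAt l := by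
  induction k with
  | zero => exact fun X hX _ => (exact_iff _).1 (𝒮.known X (by omega)) l hl
  | succ k ih =>
    intro X hX hG
    by_cases h5 : 5 ≤ 𝒮.deg X
    · exact (exact_iff _).1 (𝒮.known X h5) l hl
    · by_cases hmin : 𝒮.IsMinimal X
      · exact hcrit X (by omega) (dvd_excNumber 𝒮 hl (by omega) hG (not_fixed 𝒮 hmin)) ⟨hG, hmin⟩
      · rw [DelPezzoSystem.IsMinimal, not_not] at hmin
        obtain ⟨s, hs, hst, hsd⟩ := hmin
        obtain ⟨Y, hY, hf, hE⟩ := 𝒮.contract X s hs hst hsd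
        have hpos : 0 < Nat.card s := by
          have : Nonempty s := hs.to_subtype
          exact Nat.card_pos
        exact hE l hl (ih Y (by omega) (isPGroup_of_surj hG hf))

/-- Passing to the field of invariants of a Sylow subgroup. -/
lemma of_sylow {l : ℕ} (hl : l.Prime) (X : 𝒮.Obj)
    (h : ∀ Y : 𝒮.Obj, 𝒮.deg Y = 𝒮.deg X → IsPGroup l (𝒮.Gal Y) → (𝒮.cpx Y).ExactAt l) :
    (𝒮.cpx X).ExactAt l := by
  have : Fact l.Prime := ⟨hl⟩
  let P : Sylow l (𝒮.Gal X) := default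
  obtain ⟨T⟩ := 𝒮.baseChange X P
  have hidx : ((P : Subgroup (𝒮.Gal X)).index).Coprime l :=
    ((Nat.Prime.coprime_iff_not_dvd hl).2 P.not_dvd_index).symm
  exact descent T hidx (h _ (𝒮.deg_sub X P) (isPGroup_of_surj P.isPGroup' (𝒮.gal_sub X P)))

theorem main_all : (∀ X : 𝒮.Obj, (𝒮.cpx X).Exact) ↔
    ∀ (l : ℕ) (X : 𝒮.Obj), l.Prime → 𝒮.deg X ≤ 4 → l ∣ excNumber (𝒮.deg X) →
      𝒮.IsCritical l X → (𝒮.cpx X).ExactAt l := by
  constructor
  · intro h l X hl _ _ _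
    exact (exact_iff _).1 (h X) l hl
  · intro h X
    rw [exact_iff]
    intro l hl
    refine of_sylow 𝒮 hl X fun Y _ hY => ?_
    exact of_pgroup 𝒮 hl (fun Z hZ hdvd hc => h l Z hl hZ hdvd hc) 5 Y (by omega) hY

/-- A surface of degree at least `3` which is not minimal, without fixed exceptional curve. -/
lemma of_not_minimal {l : ℕ} (hl : l.Prime) {X : 𝒮.Obj} (hd : 3 ≤ 𝒮.deg X)
    (hfix : ∀ e : 𝒮.Exc X, ∃ g : 𝒮.Gal X, g • e ≠ e) (hmin : ¬ 𝒮.IsMinimal X) :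
    (𝒮.cpx X).ExactAt l := by
  rw [DelPezzoSystem.IsMinimal, not_not] at hmin
  obtain ⟨s, hs, hst, hsd⟩ := hmin
  obtain ⟨Y, hY, hf, hE⟩ := 𝒮.contract X s hs hst hsd
  have h2 : 1 < Nat.card s := by
    obtain ⟨e, he⟩ := hs
    obtain ⟨g, hg⟩ := hfix e
    have : Nontrivial s := ⟨⟨⟨e, he⟩, ⟨g • e, hst g e he⟩, fun h => hg (congrArg Subtype.val h).symm⟩⟩
    exact Finite.one_lt_card
  exact hE l hl ((exact_iff _).1 (𝒮.known Y (by omega)) l hl)

theorem main_cubic : (∀ X : 𝒮.Obj, 𝒮.deg X = 3 → (𝒮.cpx X).Exact) ↔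
    ∀ X : 𝒮.Obj, 𝒮.deg X = 3 → 𝒮.IsCritical 3 X → (𝒮.cpx X).ExactAt 3 := by
  constructor
  · intro h X hX _
    exact (exact_iff _).1 (h X hX) 3 Nat.prime_three
  · intro h X hX
    rw [exact_iff]
    intro l hl
    refine of_sylow 𝒮 hl X fun Y hY hG => ?_
    rw [hX] at hY
    by_cases hfix : ∀ e : 𝒮.Exc Y, ∃ g : 𝒮.Gal Y, g • e ≠ e
    · by_cases hmin : 𝒮.IsMinimal Y
      · have h1 := dvd_excNumber 𝒮 hl (by omega) hG hfix
        rw [hY] at h1
        have h2 : l ∣ 3 ^ 3 := h1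
        have h3 : l = 3 := (Nat.prime_dvd_prime_iff_eq hl Nat.prime_three).1
          (hl.dvd_of_dvd_pow h2)
        subst h3
        exact h Y hY ⟨hG, hmin⟩
      · exact of_not_minimal 𝒮 hl (by omega) hfix hmin
    · push Not at hfix
      obtain ⟨e, he⟩ := hfix
      exact (exact_iff _).1 (𝒮.known_cubic Y e hY he) l hl

theorem main_four : (∀ X : 𝒮.Obj, 𝒮.deg X = 4 → (𝒮.cpx X).Exact) ↔
    ∀ X : 𝒮.Obj, 𝒮.deg X = 4 → 𝒮.IsCritical 2 X → (𝒮.cpx X).ExactAt 2 := by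
  constructor
  · intro h X hX _
    exact (exact_iff _).1 (h X hX) 2 Nat.prime_two
  · intro h X hX
    rw [exact_iff]
    intro l hl
    refine of_sylow 𝒮 hl X fun Y hY hG => ?_
    rw [hX] at hY
    by_cases hmin : 𝒮.IsMinimal Y
    · have h1 := dvd_excNumber 𝒮 hl (by omega) hG (not_fixed 𝒮 hmin)
      rw [hY] at h1
      have h2 : l ∣ 2 ^ 4 := h1
      have h3 : l = 2 := (Nat.prime_dvd_prime_iff_eq hl Nat.prime_two).1
        (hl.dvd_of_dvd_pow h2)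
      subst h3
      exact h Y hY ⟨hG, hmin⟩
    · rw [DelPezzoSystem.IsMinimal, not_not] at hmin
      obtain ⟨s, hs, hst, hsd⟩ := hmin
      obtain ⟨Z, hZ, hf, hE⟩ := 𝒮.contract Y s hs hst hsd
      have hpos : 0 < Nat.card s := by
        have : Nonempty s := hs.to_subtype
        exact Nat.card_pos
      exact hE l hl ((exact_iff _).1 (𝒮.known Z (by omega)) l hl)

end Pool.Agent.R673.LG
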